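import Pool.Agent.P.MP_38292b_an.Defs

open MeasureTheory Filter Topology Set TopologicalSpace
open scoped ENNReal BoundedContinuousFunction

namespace Pool.Agent.P.MP_38292b_an

abbrev T : Type := unitInterval

noncomputable def dd : ℕ → T := denseSeq T

open Classical in
noncomputable def eta (t : T) : ℝ :=
  if h : ∃ n, dd n = t then 1 / ((Nat.find h : ℝ) + 1) else 0

theorem eta_nonneg (t : T) : 0 ≤ eta t := by
  unfold eta; split_ifs <;> positivity

theorem eta_le_one (t : T) : eta t ≤ 1 := by
  unfold eta; split_ifs with h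
  · rw [div_le_one (by positivity)]
    have : (0 : ℝ) ≤ Nat.find h := Nat.cast_nonneg _
    linarith
  · exact zero_le_one

theorem eta_eq_zero_iff (t : T) : eta t = 0 ↔ t ∉ range dd := by
  unfold eta; split_ifs with h
  · constructor
    · intro h0
      have : (0 : ℝ) < 1 / ((Nat.find h : ℝ) + 1) := by positivity
      exact absurd h0 this.ne'
    · intro h1; exact absurd h h1
  · exact ⟨fun _ => h, fun _ => rfl⟩

theorem finite_le_eta {ε : ℝ} (hε : 0 < ε) : {t | ε ≤ eta t}.Finite := by
  obtain ⟨N, hN⟩ := exists_nat_one_div_lt hε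
  refine ((Set.finite_lt_nat N).image dd).subset fun t ht => ?_
  simp only [mem_ofPred_eq] at ht
  unfold eta at ht
  split_ifs at ht with h
  · refine ⟨Nat.find h, ?_, Nat.find_spec h⟩
    by_contra hc
    simp only [mem_ofPred_eq, not_lt] at hc
    have h1 : (1 : ℝ) / ((Nat.find h : ℝ) + 1) ≤ 1 / ((N : ℝ) + 1) := by
      apply one_div_le_one_div_of_le (by positivity)
      have : (N : ℝ) ≤ Nat.find h := by exact_mod_cast hc
      linarith
    linarith
  · linarith

theorem usc_eta : UpperSemicontinuous eta := by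
  rw [upperSemicontinuous_iff_isOpen_preimage]
  intro c
  by_cases hc : 0 < c
  · have : eta ⁻¹' Iio c = {t | c ≤ eta t}ᶜ := by ext t; simp
    rw [this]
    exact (finite_le_eta hc).isClosed.isOpen_compl
  · have : eta ⁻¹' Iio c = ∅ := by
      ext t
      simp only [mem_preimage, mem_Iio, mem_empty_iff_false, iff_false, not_lt]
      exact (not_lt.1 hc).trans (eta_nonneg t)
    rw [this]; exact isOpen_empty

noncomputable def rho (t : T) : ℝ := 1 + eta t

theorem one_le_rho (t : T) : 1 ≤ rho t := by unfold rho; linarith [eta_nonneg t]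
theorem rho_pos (t : T) : 0 < rho t := lt_of_lt_of_le one_pos (one_le_rho t)
theorem rho_le_two (t : T) : rho t ≤ 2 := by unfold rho; linarith [eta_le_one t]

theorem usc_rho : UpperSemicontinuous rho :=
  upperSemicontinuous_const.add usc_eta

theorem measurable_rho : Measurable rho := usc_rho.measurable

/-- The compact region under the graph of `rho`. -/
def Yset : Set (T × ℝ) := {p | 0 ≤ p.2 ∧ p.2 ≤ rho p.1}

theorem isCompact_Yset : IsCompact Yset := by
  have hc : IsClosed Yset := by
    have h1 : IsClosed {p : T × ℝ | 0 ≤ p.2} := isClosed_le continuous_const continuous_snd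
    have h2 : IsClosed {p : T × ℝ | p.2 ≤ rho p.1} := by
      have := usc_rho.IsClosed_hypograph
      exact this
    exact h1.inter h2
  refine (isCompact_univ.prod (isCompact_Icc (a := (0 : ℝ)) (b := 2))).of_isClosed_subset hc ?_
  rintro ⟨t, r⟩ ⟨h0, h1⟩
  exact ⟨mem_univ _, h0, h1.trans (rho_le_two t)⟩

instance : CompactSpace Yset := isCompact_iff_compactSpace.1 isCompact_Yset

noncomputable def gg : ℕ → C(T, ℝ) := denseSeq C(T, ℝ)

theorem integrable_cont (μ : Measure T) [IsFiniteMeasure μ] (f : C(T, ℝ)) : Integrable f μ :=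
  (BoundedContinuousFunction.mkOfCompact f).integrable μ

theorem continuous_int (μ : Measure T) [IsFiniteMeasure μ] :
    Continuous fun f : C(T, ℝ) => ∫ t, f t ∂μ := by
  refine LipschitzWith.continuous (K := (μ univ).toNNReal) (LipschitzWith.of_dist_le_mul ?_)
  intro f g
  rw [Real.dist_eq, ← integral_sub (integrable_cont μ f) (integrable_cont μ g), dist_eq_norm]
  have := (BoundedContinuousFunction.mkOfCompact (f - g)).norm_integral_le_mul_norm μ
  rw [BoundedContinuousFunction.norm_mkOfCompact] at this
  simpa [Measure.real, ENNReal.toReal] using this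

theorem ext_gg {μ ν : Measure T} [IsFiniteMeasure μ] [IsFiniteMeasure ν]
    (h : ∀ n, ∫ t, gg n t ∂μ = ∫ t, gg n t ∂ν) : μ = ν := by
  apply ext_of_forall_integral_eq_of_IsFiniteMeasure
  intro f
  have hd : DenseRange gg := denseRange_denseSeq _
  have := hd.induction_on (p := fun g : C(T, ℝ) => ∫ t, g t ∂μ = ∫ t, g t ∂ν) f.toContinuousMap
    (isClosed_eq (continuous_int μ) (continuous_int ν)) h
  simpa using this

abbrev E : Type := ℕ × Bool → ℝ

/-- The embedding of `T × ℝ` in `E`, affine in the second variable. -/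
noncomputable def iota (p : T × ℝ) : E := fun i => if i.2 then p.2 * gg i.1 p.1 else gg i.1 p.1

theorem continuous_iota_apply (i : ℕ × Bool) : Continuous fun p => iota p i := by
  unfold iota
  split_ifs <;> fun_prop

theorem continuous_iota : Continuous iota := continuous_pi continuous_iota_apply

theorem abs_iota_le (p : T × ℝ) (hp : p ∈ Yset) (i : ℕ × Bool) :
    |iota p i| ≤ 2 * ‖gg i.1‖ := by
  have h1 : |gg i.1 p.1| ≤ ‖gg i.1‖ := (gg i.1).norm_coe_le_norm p.1
  have h2 : |p.2| ≤ 2 := by
    rw [abs_of_nonneg hp.1]; exact hp.2.trans (rho_le_two _)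
  unfold iota
  split_ifs
  · rw [abs_mul]; gcongr
  · linarith [norm_nonneg (gg i.1)]

theorem iota_injective : Function.Injective iota := by
  rintro ⟨t, r⟩ ⟨t', r'⟩ h
  have h1 : ∀ n, gg n t = gg n t' := fun n => by simpa [iota] using congrFun h (n, false)
  have h2 : ∀ n, r * gg n t = r' * gg n t' := fun n => by simpa [iota] using congrFun h (n, true)
  have hd : DenseRange gg := denseRange_denseSeq _
  have h3 : ∀ g : C(T, ℝ), g t = g t' := fun g =>
    hd.induction_on (p := fun g : C(T, ℝ) => g t = g t') g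
      (isClosed_eq (by fun_prop) (by fun_prop)) h1
  have h4 : ∀ g : C(T, ℝ), r * g t = r' * g t' := fun g =>
    hd.induction_on (p := fun g : C(T, ℝ) => r * g t = r' * g t') g
      (isClosed_eq (by fun_prop) (by fun_prop)) h2
  have h5 : t = t' := Subtype.ext (h3 ⟨Subtype.val, continuous_subtype_val⟩)
  have h6 : r = r' := by simpa using h4 1
  rw [h5, h6]

/-- Continuous linear functionals on the product are finite combinations of coordinates. -/
theorem functional_eq (φ : E →L[ℝ] ℝ) :
    ∃ s : Finset (ℕ × Bool), ∀ x : E, φ x = ∑ i ∈ s, x i * φ (Pi.single i 1) := by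
  classical
  have h : φ ⁻¹' Metric.ball 0 1 ∈ 𝓝 (0 : E) :=
    φ.continuous.continuousAt.preimage_mem_nhds (by simpa using Metric.ball_mem_nhds 0 one_pos)
  rw [nhds_pi, Filter.mem_pi'] at h
  obtain ⟨s, t, ht, hst⟩ := h
  have key : ∀ y : E, (∀ i ∈ s, y i = 0) → φ y = 0 := by
    intro y hy
    by_contra hne
    have : ((φ y)⁻¹ • y) ∈ φ ⁻¹' Metric.ball 0 1 := by
      apply hst
      intro i hi
      have := mem_of_mem_nhds (ht i)
      simpa [hy i hi] using this
    simp [inv_mul_cancel₀ hne] at this
  refine ⟨s, fun x => ?_⟩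
  have h1 : φ (x - ∑ i ∈ s, x i • (Pi.single i 1 : E)) = 0 := by
    apply key
    intro j hj
    simp [Finset.sum_apply, Pi.single_apply, hj]
  rw [map_sub, map_sum, sub_eq_zero] at h1
  simpa using h1

end Pool.Agent.P.MP_38292b_an
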