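import Mathlib

open MeasureTheory Filter Topology

namespace Pool.Agent.P.MP_38292b_an

/-- `g : Y → ℕ ∪ {∞}` is of Young class LU: it is the pointwise limit of a nondecreasing sequence
of upper semicontinuous functions with values in the extended reals. -/
def IsLU {Y : Type} [TopologicalSpace Y] (g : Y → ℕ∞) : Prop :=
  ∃ u : ℕ → Y → EReal, (∀ (n : ℕ) (t : ℝ), IsOpen {y | u n y < (t : EReal)}) ∧
    (∀ y, Monotone fun n => u n y) ∧
    ∀ y, Tendsto (fun n => u n y) atTop (𝓝 ((g y : ENNReal) : EReal))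

/-- `K` is a metrizable Choquet simplex: compact, convex, metrizable, and every point of `K` is the
barycentre of exactly one Borel probability measure on `K` concentrated on the extreme points. -/
def IsChoquetSimplex {E : Type} [AddCommGroup E] [Module ℝ E] [TopologicalSpace E]
    (K : Set E) : Prop :=
  IsCompact K ∧ Convex ℝ K ∧ TopologicalSpace.MetrizableSpace K ∧
    ∀ x ∈ K, ∃! ξ : @Measure K (borel K), IsProbabilityMeasure ξ ∧
      ξ {y | y.1 ∉ K.extremePoints ℝ} = 0 ∧ ∀ φ : E →L[ℝ] ℝ, ∫ y, φ y.1 ∂ξ = φ x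

/-- `x` is the convex combination of the finite set `s` of extreme points of `K` with positive
weights `p`. -/
def IsFiniteRep {E : Type} [AddCommGroup E] [Module ℝ E] (K : Set E) (x : E)
    (s : Finset (K.extremePoints ℝ)) (p : K.extremePoints ℝ → ℝ) : Prop :=
  (∀ e ∈ s, 0 < p e) ∧ ∑ e ∈ s, p e = 1 ∧ ∑ e ∈ s, p e • e.1 = x

/-- `F` is the extension of `f` by the additive rule. -/
def IsAdditiveExtension {E : Type} [AddCommGroup E] [Module ℝ E] (K : Set E)
    (f : K.extremePoints ℝ → ℕ∞) (F : K → ℕ∞) : Prop :=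
  ∀ x : K, (∀ s p, IsFiniteRep K x.1 s p → F x = ∑ e ∈ s, f e) ∧
    ((¬ ∃ s p, IsFiniteRep K x.1 s p) → F x = ⊤)

end Pool.Agent.P.MP_38292b_an
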