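import Pool.Agent.P.MP_38292b_an.Simplex

open MeasureTheory Filter Topology Set TopologicalSpace ProbabilityTheory
open scoped ENNReal BoundedContinuousFunction

namespace Pool.Agent.P.MP_38292b_an

noncomputable def jK (b : B) : K := ⟨jj b, jj_mem b⟩

theorem emb_jK : MeasurableEmbedding jK :=
  (Measurable.subtype_mk measurable_jj).measurableEmbedding fun _ _ h =>
    jj_injective (congrArg Subtype.val h)

theorem nonext_eq : {y : K | y.1 ∉ K.extremePoints ℝ} = (range jK)ᶜ := by
  ext y
  simp only [extremePoints_K, mem_ofPred_eq, mem_compl_iff, mem_range]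
  exact not_congr ⟨fun ⟨b, hb⟩ => ⟨b, Subtype.ext hb⟩, fun ⟨b, hb⟩ => ⟨b, congrArg Subtype.val hb⟩⟩

theorem rep_unique (x : E) (hx : x ∈ K) : ∃! ξ : Measure K, IsProbabilityMeasure ξ ∧
    ξ {y | y.1 ∉ K.extremePoints ℝ} = 0 ∧ ∀ φ : E →L[ℝ] ℝ, ∫ y, φ y.1 ∂ξ = φ x := by
  obtain ⟨l, hl, rfl⟩ := hx
  refine ⟨l.map jK, ⟨Measure.isProbabilityMeasure_map emb_jK.measurable.aemeasurable, ?_, ?_⟩, ?_⟩
  · rw [emb_jK.map_apply, nonext_eq]
    simp
  · intro φ
    rw [emb_jK.integral_map]
    exact functional_bary l φ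
  · rintro ξ ⟨hp, h0, hφ⟩
    rw [nonext_eq] at h0
    have h1 : (ξ.comap jK).map jK = ξ := by
      rw [emb_jK.map_comap]
      exact Measure.restrict_eq_self_of_ae_mem h0
    have h2 : IsProbabilityMeasure (ξ.comap jK) := by
      constructor
      have := emb_jK.map_apply (ξ.comap jK) univ
      rw [h1, preimage_univ] at this
      rw [← this]
      simp
    have h3 : bary (ξ.comap jK) = bary l := by
      ext i
      have := hφ (ContinuousLinearMap.proj i)
      rw [← h1, emb_jK.integral_map] at this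
      exact this
    rw [← h1, bary_inj h3]

theorem simplex_K : IsChoquetSimplex K := by
  refine ⟨isCompact_K, convex_K, inferInstance, fun x hx => ?_⟩
  have h := rep_unique x hx
  have e : (Subtype.instMeasurableSpace : MeasurableSpace K) = borel K := BorelSpace.measurable_eq
  rw [← e]
  exact h

theorem exists_idx (e : K.extremePoints ℝ) : ∃ b, jj b = e.1 :=
  extremePoints_K.subset e.2

noncomputable def idx (e : K.extremePoints ℝ) : B := (exists_idx e).choose

theorem jj_idx (e : K.extremePoints ℝ) : jj (idx e) = e.1 := (exists_idx e).choose_spec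

theorem idx_injective : Function.Injective idx := fun e e' h =>
  Subtype.ext (by rw [← jj_idx, ← jj_idx, h])

/-- The measure of a finite representation. -/
noncomputable def finMeas (s : Finset (K.extremePoints ℝ)) (p : K.extremePoints ℝ → ℝ) :
    Measure B := ∑ e ∈ s, ENNReal.ofReal (p e) • Measure.dirac (idx e)

instance (s : Finset (K.extremePoints ℝ)) (p : K.extremePoints ℝ → ℝ) :
    IsFiniteMeasure (finMeas s p) := by
  constructor
  simp [finMeas, Measure.finsetSum_apply]

theorem bary_finMeas (s : Finset (K.extremePoints ℝ)) (p : K.extremePoints ℝ → ℝ)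
    (hp : ∀ e ∈ s, 0 < p e) : bary (finMeas s p) = ∑ e ∈ s, p e • e.1 := by
  ext i
  simp only [bary, finMeas]
  rw [integral_finsetSum_measure fun e _ =>
    (integrable_jj _ i).smul_measure ENNReal.ofReal_ne_top, Finset.sum_apply]
  refine Finset.sum_congr rfl fun e he => ?_
  rw [integral_smul_measure, integral_dirac, ENNReal.toReal_ofReal (hp e he).le, jj_idx]
  rfl

theorem finMeas_single (s : Finset (K.extremePoints ℝ)) (p : K.extremePoints ℝ → ℝ)
    (hp : ∀ e ∈ s, 0 < p e) (e : K.extremePoints ℝ) : finMeas s p {idx e} ≠ 0 ↔ e ∈ s := by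
  simp only [finMeas, Measure.finsetSum_apply, Measure.smul_apply, smul_eq_mul, ne_eq,
    Finset.sum_eq_zero_iff, mul_eq_zero, ENNReal.ofReal_eq_zero]
  constructor
  · intro h
    by_contra he
    refine h fun e' he' => Or.inr ?_
    rw [Measure.dirac_apply' _ (measurableSet_singleton _), indicator_of_notMem]
    intro h2
    exact he (idx_injective h2 ▸ he')
  · intro he h
    rcases h e he with h1 | h1
    · exact absurd (hp e he) (not_lt.2 h1)
    · simp at h1

theorem rep_support {x : E} {s s' : Finset (K.extremePoints ℝ)} {p p' : K.extremePoints ℝ → ℝ}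
    (h : IsFiniteRep K x s p) (h' : IsFiniteRep K x s' p') : s = s' := by
  have : finMeas s p = finMeas s' p' :=
    bary_inj (by rw [bary_finMeas s p h.1, bary_finMeas s' p' h'.1, h.2.2, h'.2.2])
  ext e
  rw [← finMeas_single s p h.1, ← finMeas_single s' p' h'.1, this]

open Classical in
noncomputable def FF (f : K.extremePoints ℝ → ℕ∞) (x : K) : ℕ∞ :=
  if h : ∃ s p, IsFiniteRep K x.1 s p then ∑ e ∈ h.choose, f e else ⊤

theorem additive_FF (f : K.extremePoints ℝ → ℕ∞) : IsAdditiveExtension K f (FF f) := by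
  intro x
  refine ⟨fun s p h => ?_, fun h => dif_neg h⟩
  have h' : ∃ s p, IsFiniteRep K x.1 s p := ⟨s, p, h⟩
  obtain ⟨p', hp'⟩ := h'.choose_spec
  rw [FF, dif_pos h', rep_support hp' h]

/-- The closed set on which `f` is `2`. -/
def Z : Set E := range fun t : T => iota (t, 1)

theorem isClosed_Z : IsClosed Z :=
  (isCompact_range (continuous_iota.comp (continuous_id.prodMk continuous_const))).isClosed

open Classical in
noncomputable def ff (e : K.extremePoints ℝ) : ℕ∞ := if e.1 ∈ Z then 2 else 1

theorem ff_values (e : K.extremePoints ℝ) : ff e = 1 ∨ ff e = 2 := by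
  unfold ff; split_ifs <;> simp

theorem isLU_ff : IsLU ff := by
  refine ⟨fun _ e => ((ff e : ENNReal) : EReal), fun _ t => ?_, fun _ => monotone_const,
    fun _ => tendsto_const_nhds⟩
  have h1 : (((1 : ℕ∞) : ENNReal) : EReal) = ((1 : ℝ) : EReal) := by simp
  have h2 : (((2 : ℕ∞) : ENNReal) : EReal) = ((2 : ℝ) : EReal) := by
    rw [show ((2 : ℕ∞) : ENNReal) = ENNReal.ofReal 2 by simp, EReal.coe_ennreal_ofReal]
    simp
  by_cases ht2 : 2 < t
  · convert isOpen_univ
    ext e
    simp only [mem_ofPred_eq, mem_univ, iff_true]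
    rcases ff_values e with h | h
    · rw [h, h1, EReal.coe_lt_coe_iff]; linarith
    · rw [h, h2, EReal.coe_lt_coe_iff]; exact ht2
  · by_cases ht1 : 1 < t
    · convert (isClosed_Z.preimage (continuous_subtype_val
        (p := fun x => x ∈ K.extremePoints ℝ))).isOpen_compl
      ext e
      simp only [mem_ofPred_eq, mem_compl_iff, mem_preimage]
      unfold ff
      split_ifs with h
      · rw [h2, EReal.coe_lt_coe_iff]; simp [ht2, h]
      · rw [h1, EReal.coe_lt_coe_iff]; simp [ht1, h]
    · convert isOpen_empty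
      ext e
      simp only [mem_ofPred_eq, mem_empty_iff_false, iff_false]
      rcases ff_values e with h | h
      · rw [h, h1, EReal.coe_lt_coe_iff]; exact ht1
      · rw [h, h2, EReal.coe_lt_coe_iff]; exact ht2

noncomputable def ext (b : B) : K.extremePoints ℝ := ⟨jj b, by rw [extremePoints_K]; exact ⟨b, rfl⟩⟩

theorem mid_eq (t : T) : iota (t, 1 / 2) =
    (1 - 1 / (2 * rho t)) • jj (t, false) + (1 / (2 * rho t)) • jj (t, true) := by
  ext i
  have := (rho_pos t).ne'
  simp only [jj, iota, hh, Pi.add_apply, Pi.smul_apply, smul_eq_mul]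
  split_ifs <;> first | contradiction | (field_simp; ring)

theorem wt_pos (t : T) : 0 < 1 / (2 * rho t) := by have := rho_pos t; positivity

theorem wt_pos' (t : T) : 0 < 1 - 1 / (2 * rho t) := by
  have := one_le_rho t
  rw [sub_pos, div_lt_one (by linarith)]
  linarith

noncomputable def qq (t : T) : K := ⟨iota (t, 1 / 2), by
  rw [mid_eq]
  exact convex_K (jj_mem _) (jj_mem _) (wt_pos' t).le (wt_pos t).le (by ring)⟩

theorem continuous_qq : Continuous qq :=
  Continuous.subtype_mk (continuous_iota.comp (continuous_id.prodMk continuous_const)) _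

theorem FF_qq (t : T) : FF ff (qq t) = ff (ext (t, false)) + ff (ext (t, true)) := by
  classical
  have hne : ext (t, false) ≠ ext (t, true) := fun h => by
    have := jj_injective (congrArg Subtype.val h)
    simp at this
  rw [← Finset.sum_pair hne]
  refine (additive_FF ff (qq t)).1 _
    (fun e => if e = ext (t, false) then 1 - 1 / (2 * rho t) else 1 / (2 * rho t)) ⟨?_, ?_, ?_⟩
  · intro e _
    beta_reduce
    split_ifs
    · exact wt_pos' t
    · exact wt_pos t
  · rw [Finset.sum_pair hne]
    simp [hne.symm]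
  · rw [Finset.sum_pair hne]
    simp only [if_true, hne.symm, if_false]
    exact (mid_eq t).symm

theorem ff_false (t : T) : ff (ext (t, false)) = 1 := by
  refine if_neg ?_
  rintro ⟨t', h⟩
  have := congrArg Prod.snd (iota_injective h)
  simp [hh] at this

theorem ff_true_of_mem {t : T} (ht : t ∈ range dd) : ff (ext (t, true)) = 1 := by
  refine if_neg ?_
  rintro ⟨t', h⟩
  have := congrArg Prod.snd (iota_injective h)
  simp only [hh, rho, if_true, left_eq_add] at this
  exact (eta_eq_zero_iff t).1 this ht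

theorem ff_true_of_notMem {t : T} (ht : t ∉ range dd) : ff (ext (t, true)) = 2 := by
  refine if_pos ⟨t, ?_⟩
  simp [ext, jj, hh, rho, (eta_eq_zero_iff t).2 ht]

theorem not_isLU : ¬ IsLU (FF ff) := by
  rintro ⟨u, hu, hm, ht⟩
  have h2 : (((1 + 1 : ℕ∞) : ENNReal) : EReal) = ((2 : ℝ) : EReal) := by
    rw [show ((1 + 1 : ℕ∞) : ENNReal) = ENNReal.ofReal 2 by norm_num, EReal.coe_ennreal_ofReal]
    simp
  have h3 : (((1 + 2 : ℕ∞) : ENNReal) : EReal) = ((3 : ℝ) : EReal) := by
    rw [show ((1 + 2 : ℕ∞) : ENNReal) = ENNReal.ofReal 3 by norm_num, EReal.coe_ennreal_ofReal]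
    simp
  let O : ℕ → Set T := fun n => qq ⁻¹' {y | u n y < ((5 / 2 : ℝ) : EReal)} ∩ {dd n}ᶜ
  have hO : ∀ n, IsOpen (O n) := fun n =>
    ((hu n _).preimage continuous_qq).inter isOpen_compl_singleton
  have hD : ∀ n, Dense (O n) := fun n => by
    refine Dense.inter_of_isOpen_left ?_ (dense_compl_singleton _) ((hu n _).preimage continuous_qq)
    refine (denseRange_denseSeq T).mono ?_
    intro t htm
    have h1 := (hm (qq t)).ge_of_tendsto (ht (qq t)) n
    rw [FF_qq, ff_false, ff_true_of_mem htm, h2] at h1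
    exact lt_of_le_of_lt h1 (EReal.coe_lt_coe_iff.2 (by norm_num))
  obtain ⟨t, htO⟩ := (dense_iInter_of_isOpen hO hD).nonempty
  rw [mem_iInter] at htO
  have hnot : t ∉ range dd := by
    rintro ⟨n, rfl⟩
    exact (htO n).2 rfl
  have h4 := ht (qq t)
  rw [FF_qq, ff_false, ff_true_of_notMem hnot, h3] at h4
  have h5 : ((3 : ℝ) : EReal) ≤ ((5 / 2 : ℝ) : EReal) :=
    le_of_tendsto' h4 fun n => (htO n).1.le
  rw [EReal.coe_le_coe_iff] at h5
  norm_num at h5

theorem main : ∃ (E : Type) (_ : AddCommGroup E) (_ : Module ℝ E) (_ : TopologicalSpace E),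
    IsTopologicalAddGroup E ∧ ContinuousSMul ℝ E ∧ LocallyConvexSpace ℝ E ∧ T2Space E ∧
    ∃ K : Set E, IsChoquetSimplex K ∧
      ∃ f : K.extremePoints ℝ → ℕ∞, (∀ e, f e = 1 ∨ f e = 2) ∧ IsLU f ∧
        ∃ F : K → ℕ∞, IsAdditiveExtension K f F ∧ ¬ IsLU F :=
  ⟨E, inferInstance, inferInstance, inferInstance, inferInstance, inferInstance, inferInstance,
    inferInstance, K, simplex_K, ff, ff_values, isLU_ff, FF ff, additive_FF ff, not_isLU⟩

end Pool.Agent.P.MP_38292b_an
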