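import Pool.Agent.P.MP_38292b_an.Basic

open MeasureTheory Filter Topology Set TopologicalSpace ProbabilityTheory
open scoped ENNReal BoundedContinuousFunction

namespace Pool.Agent.P.MP_38292b_an

abbrev B : Type := T × Bool

noncomputable def hh (b : B) : ℝ := if b.2 then rho b.1 else 0

theorem hh_nonneg (b : B) : 0 ≤ hh b := by
  unfold hh; split_ifs
  · exact (rho_pos _).le
  · exact le_rfl

theorem hh_le (b : B) : hh b ≤ rho b.1 := by
  unfold hh; split_ifs
  · exact le_rfl
  · exact (rho_pos _).le

theorem measurable_hh : Measurable hh := by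
  unfold hh
  refine Measurable.ite ?_ (measurable_rho.comp measurable_fst) measurable_const
  exact measurable_snd (MeasurableSet.of_discrete (s := {c : Bool | c = true}))

noncomputable def beta (b : B) : Yset := ⟨(b.1, hh b), hh_nonneg b, hh_le b⟩

theorem measurable_beta : Measurable beta :=
  Measurable.subtype_mk (measurable_fst.prodMk measurable_hh)

noncomputable def jj (b : B) : E := iota (b.1, hh b)

theorem measurable_jj_apply (i : ℕ × Bool) : Measurable fun b => jj b i :=
  (continuous_iota_apply i).measurable.comp (measurable_fst.prodMk measurable_hh)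

theorem measurable_jj : Measurable jj := measurable_pi_iff.2 measurable_jj_apply

theorem integrable_jj (l : Measure B) [IsFiniteMeasure l] (i : ℕ × Bool) :
    Integrable (fun b => jj b i) l :=
  Integrable.of_bound (measurable_jj_apply i).aestronglyMeasurable (2 * ‖gg i.1‖)
    (Eventually.of_forall fun b => abs_iota_le _ (beta b).2 i)

noncomputable def bary (l : Measure B) : E := fun i => ∫ b, jj b i ∂l

theorem bary_dirac (b : B) : bary (Measure.dirac b) = jj b := by
  ext i
  simp [bary]

theorem bary_add_smul (l l' : Measure B) [IsFiniteMeasure l] [IsFiniteMeasure l'] {a c : ℝ}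
    (ha : 0 ≤ a) (hc : 0 ≤ c) :
    bary (ENNReal.ofReal a • l + ENNReal.ofReal c • l') = a • bary l + c • bary l' := by
  ext i
  have h1 : Integrable (fun b => jj b i) (ENNReal.ofReal a • l) :=
    (integrable_jj l i).smul_measure ENNReal.ofReal_ne_top
  have h2 : Integrable (fun b => jj b i) (ENNReal.ofReal c • l') :=
    (integrable_jj l' i).smul_measure ENNReal.ofReal_ne_top
  simp only [bary, Pi.add_apply, Pi.smul_apply, smul_eq_mul]
  rw [integral_add_measure h1 h2, integral_smul_measure, integral_smul_measure,
    ENNReal.toReal_ofReal ha, ENNReal.toReal_ofReal hc]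
  rfl

theorem functional_bary (l : Measure B) [IsFiniteMeasure l] (φ : E →L[ℝ] ℝ) :
    ∫ b, φ (jj b) ∂l = φ (bary l) := by
  obtain ⟨s, hs⟩ := functional_eq φ
  rw [hs (bary l), integral_congr_ae (Eventually.of_forall fun b => hs (jj b)),
    integral_finsetSum _ fun i _ => (integrable_jj l i).mul_const _]
  refine Finset.sum_congr rfl fun i _ => ?_
  rw [integral_mul_const]
  rfl

/-- The weighted marginal. -/
noncomputable def wt (l : Measure B) : Measure T :=
  (l.withDensity fun b => ENNReal.ofReal (hh b)).map Prod.fst

instance (l : Measure B) [IsFiniteMeasure l] : IsFiniteMeasure (wt l) := by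
  have : IsFiniteMeasure (l.withDensity fun b => ENNReal.ofReal (hh b)) := by
    apply isFiniteMeasure_withDensity_ofReal
    exact (Integrable.of_bound measurable_hh.aestronglyMeasurable 2
      (Eventually.of_forall fun b => by
        rw [Real.norm_eq_abs, abs_of_nonneg (hh_nonneg b)]
        exact (hh_le b).trans (rho_le_two _))).2
  unfold wt
  infer_instance

theorem integral_wt (l : Measure B) (n : ℕ) : ∫ t, gg n t ∂(wt l) = bary l (n, true) := by
  unfold wt
  rw [integral_map measurable_fst.aemeasurable (gg n).continuous.aestronglyMeasurable,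
    integral_withDensity_eq_integral_toReal_smul measurable_hh.ennreal_ofReal
      (Eventually.of_forall fun _ => ENNReal.ofReal_lt_top)]
  simp only [bary, jj, iota, ENNReal.toReal_ofReal (hh_nonneg _), smul_eq_mul, if_true]

theorem integral_fst (l : Measure B) (n : ℕ) :
    ∫ t, gg n t ∂(l.map Prod.fst) = bary l (n, false) := by
  rw [integral_map measurable_fst.aemeasurable (gg n).continuous.aestronglyMeasurable]
  simp [bary, jj, iota]

theorem measure_true (l : Measure B) {S : Set T} (hS : MeasurableSet S) :
    l (S ×ˢ {true}) = ∫⁻ t in S, ENNReal.ofReal (rho t)⁻¹ ∂(wt l) := by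
  have hm : Measurable fun t => ENNReal.ofReal (rho t)⁻¹ := measurable_rho.inv.ennreal_ofReal
  rw [← lintegral_indicator hS, wt, lintegral_map (hm.indicator hS) measurable_fst,
    lintegral_withDensity_eq_lintegral_mul _ measurable_hh.ennreal_ofReal
      (g := fun b : B => S.indicator (fun t => ENNReal.ofReal (rho t)⁻¹) b.1)
      ((hm.indicator hS).comp measurable_fst),
    ← lintegral_indicator_one (hS.prod (measurableSet_singleton _))]
  refine lintegral_congr fun b => ?_
  obtain ⟨t, c⟩ := b
  by_cases ht : t ∈ S
  · cases c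
    · simp [hh, ht]
    · simp only [hh, mem_prod, ht, mem_singleton_iff, and_self, indicator_of_mem, Pi.one_apply,
        if_true, Pi.mul_apply]
      rw [← ENNReal.ofReal_mul (rho_pos t).le, mul_inv_cancel₀ (rho_pos t).ne']
      simp
  · simp [ht]

theorem measure_split (l : Measure B) {S : Set T} (hS : MeasurableSet S) :
    l (S ×ˢ {false}) + l (S ×ˢ {true}) = l.map Prod.fst S := by
  rw [Measure.map_apply measurable_fst hS, ← measure_union _ (hS.prod (measurableSet_singleton _))]
  · congr 1
    ext ⟨t, c⟩
    cases c <;> simp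
  · rw [Set.disjoint_left]
    rintro ⟨t, c⟩ ⟨-, h1⟩ ⟨-, h2⟩
    simp only [mem_singleton_iff] at h1 h2
    rw [h1] at h2
    exact absurd h2 (by simp)

theorem bary_inj {l l' : Measure B} [IsFiniteMeasure l] [IsFiniteMeasure l']
    (h : bary l = bary l') : l = l' := by
  have h1 : wt l = wt l' := ext_gg fun n => by rw [integral_wt, integral_wt, h]
  have h2 : l.map Prod.fst = l'.map Prod.fst := ext_gg fun n => by
    rw [integral_fst, integral_fst, h]
  have h3 : ∀ S, MeasurableSet S → l (S ×ˢ {true}) = l' (S ×ˢ {true}) := fun S hS => by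
    rw [measure_true l hS, measure_true l' hS, h1]
  have h4 : ∀ S, MeasurableSet S → l (S ×ˢ {false}) = l' (S ×ˢ {false}) := fun S hS => by
    have := measure_split l hS
    rw [h2, ← measure_split l' hS, h3 S hS] at this
    exact (ENNReal.add_left_inj (measure_ne_top _ _)).1 this
  ext A hA
  have hsplit : ∀ m : Measure B, m A = m (((fun t => (t, false)) ⁻¹' A) ×ˢ {false}) +
      m (((fun t => (t, true)) ⁻¹' A) ×ˢ {true}) := by
    intro m
    rw [← measure_union _ ((measurable_prodMk_right hA).prod (measurableSet_singleton _))]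
    · congr 1
      ext ⟨t, c⟩
      cases c <;> simp
    · rw [Set.disjoint_left]
      rintro ⟨t, c⟩ ⟨-, h1⟩ ⟨-, h2⟩
      simp only [mem_singleton_iff] at h1 h2
      rw [h1] at h2
      exact absurd h2 (by simp)
  rw [hsplit l, hsplit l', h3 _ (measurable_prodMk_right hA), h4 _ (measurable_prodMk_right hA)]

theorem jj_injective : Function.Injective jj := fun b b' h => by
  have : Measure.dirac b = Measure.dirac b' := bary_inj (by rw [bary_dirac, bary_dirac, h])
  exact MeasureTheory.dirac_eq_dirac_iff.1 this

/-- The simplex. -/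
def K : Set E := {x | ∃ l : Measure B, IsProbabilityMeasure l ∧ bary l = x}

theorem jj_mem (b : B) : jj b ∈ K := ⟨Measure.dirac b, inferInstance, bary_dirac b⟩

theorem prob_mix (l l' : Measure B) [IsProbabilityMeasure l] [IsProbabilityMeasure l'] {a c : ℝ}
    (ha : 0 ≤ a) (hc : 0 ≤ c) (hac : a + c = 1) :
    IsProbabilityMeasure (ENNReal.ofReal a • l + ENNReal.ofReal c • l') := by
  constructor
  simp [← ENNReal.ofReal_add ha hc, hac]

theorem convex_K : Convex ℝ K := by
  rintro _ ⟨l, hl, rfl⟩ _ ⟨l', hl', rfl⟩ a c ha hc hac
  exact ⟨_, prob_mix l l' ha hc hac, bary_add_smul l l' ha hc⟩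

noncomputable def baryY (m : ProbabilityMeasure Yset) : E := fun i =>
  ∫ y : Yset, iota y.1 i ∂(m : Measure Yset)

theorem continuous_baryY : Continuous baryY := by
  refine continuous_pi fun i => ?_
  exact ProbabilityMeasure.continuous_integral_continuousMap
    (⟨fun y : Yset => iota y.1 i, (continuous_iota_apply i).comp continuous_subtype_val⟩ :
      C(Yset, ℝ))

theorem K_eq : K = range baryY := by
  apply Subset.antisymm
  · rintro _ ⟨l, hl, rfl⟩
    refine ⟨⟨l.map beta, Measure.isProbabilityMeasure_map measurable_beta.aemeasurable⟩, ?_⟩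
    ext i
    simp only [baryY, ProbabilityMeasure.coe_mk]
    rw [integral_map (f := fun y : Yset => iota y.1 i) measurable_beta.aemeasurable
      ((continuous_iota_apply i).comp continuous_subtype_val).aestronglyMeasurable]
    rfl
  · rintro _ ⟨m, rfl⟩
    let w : Yset → ℝ := fun y => y.1.2 / rho y.1.1
    have hw : Measurable w :=
      (measurable_snd.comp measurable_subtype_coe).div
        (measurable_rho.comp (measurable_fst.comp measurable_subtype_coe))
    have hw0 : ∀ y, 0 ≤ w y := fun y => div_nonneg y.2.1 (rho_pos _).le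
    have hw1 : ∀ y, 0 ≤ 1 - w y := fun y => sub_nonneg.2 ((div_le_one (rho_pos _)).2 y.2.2)
    have hw' : Measurable fun y => 1 - w y := measurable_const.sub hw
    have hm : ∀ c : Bool, Measurable fun y : Yset => ((y.1.1, c) : B) := fun c =>
      (measurable_fst.comp measurable_subtype_coe).prodMk measurable_const
    let l0 : Measure B := ((m : Measure Yset).withDensity fun y => ENNReal.ofReal (1 - w y)).map
      fun y => (y.1.1, false)
    let l1 : Measure B := ((m : Measure Yset).withDensity fun y => ENNReal.ofReal (w y)).map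
      fun y => (y.1.1, true)
    have hp : IsProbabilityMeasure (l0 + l1) := by
      constructor
      simp only [l0, l1, Measure.add_apply]
      rw [Measure.map_apply (hm _) MeasurableSet.univ, Measure.map_apply (hm _) MeasurableSet.univ,
        preimage_univ, preimage_univ, withDensity_apply _ MeasurableSet.univ,
        withDensity_apply _ MeasurableSet.univ, Measure.restrict_univ,
        ← lintegral_add_left hw'.ennreal_ofReal]
      simp only [← ENNReal.ofReal_add (hw1 _) (hw0 _), sub_add_cancel]
      simp
    have f0 : IsFiniteMeasure l0 := isFiniteMeasure_of_le (l0 + l1) (Measure.le_add_right le_rfl)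
    have f1 : IsFiniteMeasure l1 := isFiniteMeasure_of_le (l0 + l1) (Measure.le_add_left le_rfl)
    refine ⟨l0 + l1, hp, ?_⟩
    ext i
    simp only [bary, baryY]
    rw [integral_add_measure (integrable_jj l0 i) (integrable_jj l1 i)]
    simp only [l0, l1]
    rw [integral_map (hm _).aemeasurable (measurable_jj_apply i).aestronglyMeasurable,
      integral_map (hm _).aemeasurable (measurable_jj_apply i).aestronglyMeasurable,
      integral_withDensity_eq_integral_toReal_smul hw'.ennreal_ofReal
        (Eventually.of_forall fun _ => ENNReal.ofReal_lt_top),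
      integral_withDensity_eq_integral_toReal_smul hw.ennreal_ofReal
        (Eventually.of_forall fun _ => ENNReal.ofReal_lt_top)]
    simp only [ENNReal.toReal_ofReal (hw1 _), ENNReal.toReal_ofReal (hw0 _), smul_eq_mul]
    have hb : ∀ (c : Bool) (y : Yset), |jj (y.1.1, c) i| ≤ 2 * ‖gg i.1‖ := fun c y =>
      abs_iota_le _ (beta (y.1.1, c)).2 i
    rw [← integral_add (G := ℝ)]
    · refine integral_congr_ae (Eventually.of_forall fun y => ?_)
      have := (rho_pos y.1.1).ne'
      simp only [jj, iota, hh, w]
      split_ifs <;> first | contradiction | (field_simp; ring)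
    · refine Integrable.of_bound (hw'.mul ((measurable_jj_apply i).comp (hm _))).aestronglyMeasurable
        (2 * ‖gg i.1‖) (Eventually.of_forall fun y => ?_)
      rw [Real.norm_eq_abs, abs_mul, abs_of_nonneg (hw1 y)]
      have := hb false y
      have h0 := hw0 y
      have h1 := hw1 y
      nlinarith [abs_nonneg (jj (y.1.1, false) i)]
    · refine Integrable.of_bound (hw.mul ((measurable_jj_apply i).comp (hm _))).aestronglyMeasurable
        (2 * ‖gg i.1‖) (Eventually.of_forall fun y => ?_)
      rw [Real.norm_eq_abs, abs_mul, abs_of_nonneg (hw0 y)]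
      have := hb true y
      have h0 := hw0 y
      have h1 := hw1 y
      nlinarith [abs_nonneg (jj (y.1.1, true) i)]

theorem isCompact_K : IsCompact K := by
  rw [K_eq]; exact isCompact_range continuous_baryY

theorem extremePoints_K : K.extremePoints ℝ = range jj := by
  apply Subset.antisymm
  · rintro _ ⟨⟨l, hl, rfl⟩, hx⟩
    have : IsZeroOneMeasure l := by
      constructor
      intro S hS
      by_contra hc
      push Not at hc
      obtain ⟨h0, h1⟩ := hc
      have h0' : l Sᶜ ≠ 0 := fun h => h1 ((prob_compl_eq_zero_iff hS).1 h)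
      have p1 := cond_isProbabilityMeasure (μ := l) h0
      have p2 := cond_isProbabilityMeasure (μ := l) h0'
      have hmix : ENNReal.ofReal (l S).toReal • l[|S] + ENNReal.ofReal (l Sᶜ).toReal • l[|Sᶜ] = l := by
        ext A hA
        rw [ENNReal.ofReal_toReal (measure_ne_top _ _), ENNReal.ofReal_toReal (measure_ne_top _ _)]
        simp only [Measure.add_apply, Measure.smul_apply, smul_eq_mul]
        rw [mul_comm (l S), mul_comm (l Sᶜ)]
        exact cond_add_cond_compl_eq hS l
      have hseg : bary l ∈ openSegment ℝ (bary l[|S]) (bary l[|Sᶜ]) := by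
        refine ⟨(l S).toReal, (l Sᶜ).toReal, ENNReal.toReal_pos h0 (measure_ne_top _ _),
          ENNReal.toReal_pos h0' (measure_ne_top _ _), ?_, ?_⟩
        · rw [← ENNReal.toReal_add (measure_ne_top _ _) (measure_ne_top _ _),
            measure_add_measure_compl hS]
          simp
        · rw [← bary_add_smul _ _ ENNReal.toReal_nonneg ENNReal.toReal_nonneg, hmix]
      have h2 := hx ⟨_, p1, rfl⟩ ⟨_, p2, rfl⟩ hseg
      have h3 : l[|S] = l := bary_inj h2
      apply h0'
      rw [← h3, cond_apply hS]
      simp
    obtain ⟨b, hb⟩ := IsZeroOneMeasure.exists_eq_dirac (μ := l)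
    exact ⟨b, by rw [hb, bary_dirac]⟩
  · rintro _ ⟨b, rfl⟩
    refine ⟨jj_mem b, ?_⟩
    rintro _ ⟨l, hl, rfl⟩ _ ⟨l', hl', rfl⟩ ⟨a, c, ha, hc, hac, h⟩
    have := prob_mix l l' ha.le hc.le hac
    rw [← bary_add_smul _ _ ha.le hc.le, ← bary_dirac] at h
    have h1 := bary_inj h
    have h2 : l {b}ᶜ = 0 := by
      have := congrArg (fun m : Measure B => m {b}ᶜ) h1
      simp only [Measure.add_apply, Measure.smul_apply, smul_eq_mul] at this
      rw [Measure.dirac_apply' _ (measurableSet_singleton b).compl] at this
      simp only [mem_compl_iff, mem_singleton_iff, not_true_eq_false, not_false_eq_true,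
        indicator_of_notMem, add_eq_zero, mul_eq_zero, ENNReal.ofReal_eq_zero] at this
      exact this.1.resolve_left (not_le.2 ha)
    have h3 : l = Measure.dirac b := by
      ext A hA
      rw [Measure.dirac_apply' _ hA]
      by_cases hb : b ∈ A
      · rw [indicator_of_mem hb, Pi.one_apply, ← prob_compl_eq_zero_iff hA]
        exact measure_mono_null (compl_subset_compl.2 (singleton_subset_iff.2 hb)) h2
      · rw [indicator_of_notMem hb]
        exact measure_mono_null (subset_compl_singleton_iff.2 hb) h2
    rw [h3, bary_dirac]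

end Pool.Agent.P.MP_38292b_an
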